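import Pool.Agent.H123.LP.CaseB

/-!
# The attachment is complete to the component
-/

set_option autoImplicit false

namespace Pool.Agent.H123.LP

open Finset Classical

variable {V : Type*} {G : SimpleGraph V}

/-- the segments next to the attachments not adjacent to `a` are touched by `a` -/
theorem claimA {L : ℕ} {p : ℕ → V} {C : Set V} (S : Sys G L p C) (h5 : NoP5 G) {O : Set V}
    (hO : ∀ o ∈ O, ∀ c ∈ C, ¬ G.Adj c o)
    (hO' : ∀ k < L, k ∉ Sys.I G L p C → p k ∈ O) {a : V}
    (hcomp : ∀ c ∈ C, G.Adj a c) {j z : ℕ} (hj : j ∈ Sys.I G L p C)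
    (hmax : Tch G O a ⊆ Tch G O (p j) →
      (Sys.tau G L p C (p j)).card ≤ (Sys.tau G L p C a).card)
    (hz : z < L) (hzI : z ∉ Sys.I G L p C) (hjz : G.Adj (p j) (p z))
    (hind : Sys.Ind G L p C z) (hnon : ¬ G.Adj a (p j)) :
    Sys.cell G L p C z ∈ Sys.tau G L p C a := by
  by_contra hcon
  have haz : ¬ G.Adj a (p z) := fun h => hcon (Sys.mem_tau.2 ⟨z, hz, hzI, h, rfl⟩)
  obtain ⟨-, c, hc, hcj⟩ := Sys.mem_I.1 hj
  have hzO : p z ∈ O := hO' z hz hzI
  have key : ∀ y ∈ O, G.Adj a y → ¬ G.Adj y (p j) → G.Adj y (p z) := by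
    intro y hy hay hyj
    by_contra hyz
    exact h5 y a c (p j) (p z) hay.symm (hcomp c hc) hcj hjz (fun h => hO y hy c hc h.symm) hyj hyz
      hnon haz (hO _ hzO c hc)
  have hsub : Tch G O a ⊆ Tch G O (p j) := by
    rintro w ⟨u, hu, hau, huw⟩
    by_cases huj : G.Adj u (p j)
    · exact ⟨u, hu, huj.symm, huw⟩
    · exact Tch_rch (Tch_step (Tch_adj hzO hjz) hu (key u hu hau huj).symm) huw
  have hle := hmax hsub
  have hzj : Sys.cell G L p C z ∈ Sys.tau G L p C (p j) :=
    Sys.mem_tau.2 ⟨z, hz, hzI, hjz, rfl⟩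
  obtain ⟨T, hT, hT'⟩ : ∃ T ∈ Sys.tau G L p C a, T ∉ Sys.tau G L p C (p j) := by
    by_contra h
    push Not at h
    have hss : Sys.tau G L p C a ⊂ Sys.tau G L p C (p j) := ⟨h, fun h' => hcon (h' hzj)⟩
    have := card_lt_card hss
    omega
  obtain ⟨k, hk, hkI, hak, rfl⟩ := Sys.mem_tau.1 hT
  have hjk : ∀ m ∈ Sys.cell G L p C k, ¬ G.Adj (p j) (p m) := by
    intro m hm h
    exact hT' (Sys.mem_tau.2 ⟨m, (Sys.mem_cell.1 hm).1, Sys.not_I_of_cell hm, h,
      Sys.cell_eq hk hm⟩)
  have hkk := Sys.self_mem hk hkI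
  have hkz := key (p k) (hO' k hk hkI) hak (fun h => hjk k hkk h.symm)
  obtain ⟨m, hm, hzm⟩ := hind k hk hkI
  obtain ⟨y, hy, y', hy', h1, h2, h3⟩ := S.edge hk hkk hm hkz.symm hzm
  have yL := (Sys.mem_cell.1 hy).1
  have yL' := (Sys.mem_cell.1 hy').1
  exact h5 c (p j) (p z) (p y) (p y') hcj hjz h2 h1 (S.notC hz hzI hc)
    (S.notC yL (Sys.not_I_of_cell hy) hc) (S.notC yL' (Sys.not_I_of_cell hy') hc)
    (hjk y hy) (hjk y' hy') h3

/-- the closed neighbourhood of the new component is larger -/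
theorem caseA [Fintype V] {Q P : List V} (hQ : Longest G Q) {x0 : V} {i : ℕ}
    (hi : i ∈ Sys.I G Q.length (fun i => Q.getD i x0) (comp G Q x0))
    (hcomp : ∀ c ∈ comp G Q x0, G.Adj (Q.getD i x0) c)
    (hnum : (Sys.I G Q.length (fun i => Q.getD i x0) (comp G Q x0)).card + 1 ≤
      Sys.num G Q.length (fun i => Q.getD i x0) (Q.getD i x0))
    (haP : Q.getD i x0 ∉ P) :
    nc G (comp G Q x0) < nc G (comp G P (Q.getD i x0)) := by
  have SQ := theSys hQ x0 (G := G)
  have hiL := (Sys.mem_I.1 hi).1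
  set a := Q.getD i x0 with ha
  have haC' : a ∈ comp G P a := self_comp haP
  have haQ : a ∈ Q := by
    rw [ha]
    exact getD_mem x0 hiL
  set C := comp G Q x0 with hC
  set CF : Finset V := univ.filter fun v => v ∈ C with hCF
  set J := Sys.I G Q.length (fun i => Q.getD i x0) C with hJ
  set N : Finset ℕ := (range Q.length).filter fun k => G.Adj a (Q.getD k x0) with hN
  have h1 : nc G C ≤ CF.card + J.card := by
    have e1 : (J.image fun j => Q.getD j x0).card ≤ J.card := card_image_le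
    refine le_trans ?_ (Nat.add_le_add_left e1 _)
    refine le_trans (card_le_card ?_) (card_union_le _ _)
    intro v hv
    rw [mem_filter] at hv
    rw [mem_union]
    by_cases hvC : v ∈ C
    · left
      rw [hCF, mem_filter]
      exact ⟨mem_univ _, hvC⟩
    · right
      rcases hv.2 with h | ⟨c, hc, hcv⟩
      · exact absurd h hvC
      · obtain ⟨j, hj, hjv⟩ := att hvC hc hcv
        exact mem_image.2 ⟨j, hj, hjv⟩
  have h2 : CF.card + N.card + 1 ≤ nc G (comp G P a) := by
    have hinj : Set.InjOn (fun k => Q.getD k x0) (N : Set ℕ) := by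
      intro i hi j hj hij
      have e1 := mem_range.1 (mem_filter.1 (mem_coe.1 hi)).1
      have e2 := mem_range.1 (mem_filter.1 (mem_coe.1 hj)).1
      exact SQ.inj i e1 j e2 hij
    have hdis : Disjoint CF (N.image fun k => Q.getD k x0) := by
      rw [disjoint_left]
      intro v hv hv'
      obtain ⟨k, hk, rfl⟩ := mem_image.1 hv'
      exact comp_not _ (mem_filter.1 hv).2 (getD_mem x0 (mem_range.1 (mem_filter.1 hk).1))
    have hnot : a ∉ CF ∪ (N.image fun k => Q.getD k x0) := by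
      intro h
      rcases mem_union.1 h with h | h
      · exact comp_not _ (mem_filter.1 h).2 haQ
      · obtain ⟨k, hk, hka⟩ := mem_image.1 h
        have := (mem_filter.1 hk).2
        rw [hka] at this
        exact G.loopless.irrefl _ this
    rw [← card_image_of_injOn hinj, ← card_union_of_disjoint hdis, ← card_insert_of_notMem hnot]
    refine card_le_card ?_
    intro v hv
    rw [mem_filter]
    refine ⟨mem_univ _, ?_⟩
    rcases mem_insert.1 hv with rfl | hv
    · exact Or.inl haC'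
    rcases mem_union.1 hv with hv | hv
    · exact Or.inr ⟨a, haC', hcomp v (mem_filter.1 hv).2⟩
    · obtain ⟨k, hk, rfl⟩ := mem_image.1 hv
      exact Or.inr ⟨a, haC', (mem_filter.1 hk).2⟩
  have h3 : J.card + 1 ≤ N.card := hnum
  omega

end Pool.Agent.H123.LP
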