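import Pool.Agent.H123.LP.Hub

/-!
# The attachment is not complete to the component
-/

set_option autoImplicit false

namespace Pool.Agent.H123.LP

open Finset Classical

variable {V : Type*} {G : SimpleGraph V}

/-- the vertices without neighbour in `C` and outside `C` -/
def Out (G : SimpleGraph V) (C : Set V) : Set V := {v | v ∉ NC G C}

theorem out_not {C : Set V} : ∀ o ∈ Out G C, ∀ c ∈ C, ¬ G.Adj c o :=
  fun _ ho c hc h => ho (Or.inr ⟨c, hc, h⟩)

theorem out_notC {C : Set V} {o : V} (ho : o ∈ Out G C) : o ∉ C := fun h => ho (Or.inl h)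

/-- the next vertices on the longest path of an attachment -/
theorem nbrs {Q : List V} (hQ : Longest G Q) {x0 s : V} (hs : s ∉ comp G Q x0)
    (hs' : ∃ c ∈ comp G Q x0, G.Adj c s) : ∃ j, 1 ≤ j ∧ j + 1 < Q.length ∧ Q.getD j x0 = s ∧
      Q.getD (j - 1) x0 ∈ Out G (comp G Q x0) ∧ Q.getD (j + 1) x0 ∈ Out G (comp G Q x0) ∧
      G.Adj s (Q.getD (j - 1) x0) ∧ G.Adj s (Q.getD (j + 1) x0) := by
  have S := theSys hQ x0 (G := G)
  obtain ⟨c, hc, hcs⟩ := hs'
  obtain ⟨j, hj, hjs⟩ := att hs hc hcs
  have h1 := S.pos hj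
  have h2 := S.succ_lt hj
  refine ⟨j, h1, h2, hjs, notNC (by omega) (S.pred_not hj), notNC h2 (S.succ_not hj), ?_, ?_⟩
  · have := S.adj (j - 1) (by omega)
    rw [show j - 1 + 1 = j by omega] at this
    rw [← hjs]
    exact this.symm
  · have := S.adj j h2
    rw [← hjs]
    exact this

/-- the touched parts are not on the other path -/
theorem avoid [Fintype V] {Q P : List V} (hQ : Longest G Q) (hP : Longest G P) {x0 a : V}
    (hT : ∀ s, s ∉ comp G Q x0 → (∃ c ∈ comp G Q x0, G.Adj c s) → ¬ G.Adj a s →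
      Tch G (Out G (comp G Q x0)) s ⊆ Tch G (Out G (comp G Q x0)) a)
    (hfull : ∀ w ∈ Tch G (Out G (comp G Q x0)) a, G.Adj a w) (haP : a ∉ P) :
    ∀ w ∈ Tch G (Out G (comp G Q x0)) a, w ∉ P := by
  have SQ := theSys hQ x0 (G := G)
  have SP := theSys hP a (G := G)
  have haC' : a ∈ comp G P a := self_comp haP
  set C := comp G Q x0 with hC
  set O := Out G C with hO
  set C' := comp G P a with hC'
  set A : Finset V := univ.filter fun v => v ∈ P ∧ v ∈ Tch G O a with hA
  set B : Finset V := univ.filter fun v => v ∉ C ∧ (∃ c ∈ C, G.Adj c v) ∧ v ∈ P ∧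
    ∀ c ∈ C', ¬ G.Adj c v with hB
  -- indices of the vertices in `A` on `P`
  have h1 : A.Nonempty → A.card + 1 ≤ B.card := by
    intro hne
    set X : Finset ℕ := (range P.length).filter fun k => P.getD k a ∈ A with hX
    have hXA : X.card = A.card := by
      have hinj : Set.InjOn (fun k => P.getD k a) (X : Set ℕ) := by
        intro i hi j hj hij
        have e1 := mem_range.1 (mem_filter.1 (mem_coe.1 hi)).1
        have e2 := mem_range.1 (mem_filter.1 (mem_coe.1 hj)).1
        exact SP.inj i e1 j e2 hij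
      rw [← card_image_of_injOn hinj]
      congr 1
      ext v
      simp only [mem_image, hX, mem_filter, mem_range]
      constructor
      · rintro ⟨k, ⟨-, h⟩, rfl⟩
        exact h
      · intro hv
        obtain ⟨k, hk, rfl⟩ := idx a (mem_filter.1 hv).2.1
        exact ⟨k, ⟨hk, hv⟩, rfl⟩
    have hXne : X.Nonempty := by
      rw [← card_pos, hXA]
      exact card_pos.2 hne
    rw [← hXA]
    refine count2 (p := fun k => P.getD k a) (L := P.length) SP.inj X B hXne ?_
    intro k hk
    rw [hX, mem_filter, mem_range, hA, mem_filter] at hk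
    obtain ⟨hkL, -, -, hkT⟩ := hk
    have hkI : k ∈ Sys.I G P.length (fun i => P.getD i a) C' :=
      Sys.mem_I.2 ⟨hkL, a, haC', hfull _ hkT⟩
    have e1 := SP.pos hkI
    have e2 := SP.succ_lt hkI
    have gen : ∀ m < P.length, m ∉ Sys.I G P.length (fun i => P.getD i a) C' →
        G.Adj (P.getD k a) (P.getD m a) → P.getD m a ∈ B := by
      intro m hm hmI hadj
      have e3 : ∀ c ∈ C', ¬ G.Adj c (P.getD m a) := fun c hc h => hmI (Sys.mem_I.2 ⟨hm, c, hc, h⟩)
      have e4 : P.getD m a ∉ C := fun h => Tch_sub hkT (Or.inr ⟨_, h, hadj.symm⟩)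
      rw [hB, mem_filter]
      refine ⟨mem_univ _, e4, ?_, getD_mem a hm, e3⟩
      by_contra hcon
      have e5 : P.getD m a ∈ O := by
        rintro (h | h)
        · exact e4 h
        · exact hcon h
      exact e3 a haC' (hfull _ (Tch_step hkT e5 hadj))
    refine ⟨e1, e2, gen _ (by omega) (SP.pred_not hkI) ?_, gen _ e2 (SP.succ_not hkI) (SP.adj k e2)⟩
    have := SP.adj (k - 1) (by omega)
    rw [show k - 1 + 1 = k by omega] at this
    exact this.symm
  -- indices of the vertices in `B` on `Q`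
  have h2 : B.Nonempty → B.card + 1 ≤ A.card := by
    intro hne
    set X : Finset ℕ := (range Q.length).filter fun k => Q.getD k x0 ∈ B with hX
    have hXB : X.card = B.card := by
      have hinj : Set.InjOn (fun k => Q.getD k x0) (X : Set ℕ) := by
        intro i hi j hj hij
        have e1 := mem_range.1 (mem_filter.1 (mem_coe.1 hi)).1
        have e2 := mem_range.1 (mem_filter.1 (mem_coe.1 hj)).1
        exact SQ.inj i e1 j e2 hij
      rw [← card_image_of_injOn hinj]
      congr 1
      ext v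
      simp only [mem_image, hX, mem_filter, mem_range]
      constructor
      · rintro ⟨k, ⟨-, h⟩, rfl⟩
        exact h
      · intro hv
        have hv' := hv
        rw [hB, mem_filter] at hv'
        obtain ⟨j, e1, e2, e3, -⟩ := nbrs hQ hv'.2.1 hv'.2.2.1
        exact ⟨j, ⟨by omega, e3 ▸ hv⟩, e3⟩
    have hXne : X.Nonempty := by
      rw [← card_pos, hXB]
      exact card_pos.2 hne
    rw [← hXB]
    refine count2 (p := fun k => Q.getD k x0) (L := Q.length) SQ.inj X A hXne ?_
    intro k hk
    rw [hX, mem_filter, mem_range, hB, mem_filter] at hk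
    obtain ⟨hkL, -, k1, k2, k3, k4⟩ := hk
    obtain ⟨j, e1, e2, e3, e4, e5, e6, e7⟩ := nbrs hQ k1 k2
    have hjk : j = k := SQ.inj j (by omega) k hkL e3
    subst hjk
    have hsub := hT _ k1 k2 (k4 a haC')
    have gen : ∀ u ∈ O, G.Adj (Q.getD j x0) u → u ∈ A := by
      intro u hu hadj
      have g1 : u ∈ Tch G O a := hsub (Tch_adj hu hadj)
      rw [hA, mem_filter]
      refine ⟨mem_univ _, ?_, g1⟩
      by_contra huP
      have g2 : u ∈ C' := comp_closed haC' (hfull u g1) huP
      exact k4 u g2 hadj.symm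
    exact ⟨e1, e2, gen _ e4 e6, gen _ e5 e7⟩
  intro w hw hwP
  have hwA : A.Nonempty := ⟨w, by rw [hA, mem_filter]; exact ⟨mem_univ _, hwP, hw⟩⟩
  have h3 := h1 hwA
  have h4 : B.Nonempty := by
    rw [← card_pos]
    omega
  have h6 := h2 h4
  omega

/-- an initial part of the other path -/
theorem initial [Fintype V] {Q P : List V} (hQ : Longest G Q) (hP : Longest G P) {x0 a : V}
    {D : List V} (hD1 : D.IsChain G.Adj) (hD2 : D.Nodup)
    (hDa : ∀ v ∈ D, v ∈ Tch G (Out G (comp G Q x0)) a)
    (hT : ∀ s, s ∉ comp G Q x0 → (∃ c ∈ comp G Q x0, G.Adj c s) → ¬ G.Adj a s →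
      Tch G (Out G (comp G Q x0)) s ⊆ Tch G (Out G (comp G Q x0)) a)
    (hfull : ∀ w ∈ Tch G (Out G (comp G Q x0)) a, G.Adj a w) (haP : a ∉ P) :
    ∃ B : List V, B.IsChain G.Adj ∧ B.Nodup ∧ D.length + 1 ≤ B.length ∧
      ∀ v ∈ B, v ∈ Out G (comp G Q x0) ∨ (v ∈ comp G Q x0 ∧ ¬ G.Adj a v) := by
  have SP := theSys hP a (G := G)
  have haC' : a ∈ comp G P a := self_comp haP
  have hav := avoid hQ hP hT hfull haP
  have hW : ∀ w ∈ Tch G (Out G (comp G Q x0)) a, w ∈ comp G P a := fun w hw =>
    comp_closed haC' (hfull w hw) (hav w hw)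
  have hphi : phi G (comp G P a) (D.length + 1) :=
    phi_fin (comp_link a) haC' hD1 hD2 (fun v hv => hW v (hDa v hv)) (fun v hv => hfull v (hDa v hv))
  by_cases hZ : ∃ k, k < P.length ∧ ¬ (P.getD k a ∈ Out G (comp G Q x0) ∨
      (P.getD k a ∈ comp G Q x0 ∧ ¬ G.Adj a (P.getD k a)))
  · set k := Nat.find hZ with hk
    obtain ⟨hkL, hkZ⟩ := Nat.find_spec hZ
    rw [← hk] at hkL hkZ
    have hmin : ∀ m < k, P.getD m a ∈ Out G (comp G Q x0) ∨
        (P.getD m a ∈ comp G Q x0 ∧ ¬ G.Adj a (P.getD m a)) := by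
      intro m hm
      by_contra hcon
      exact Nat.find_min hZ hm ⟨by omega, hcon⟩
    have hkI : k ∈ Sys.I G P.length (fun i => P.getD i a) (comp G P a) := by
      rw [not_or, not_and, not_not] at hkZ
      obtain ⟨z1, z2⟩ := hkZ
      by_cases haz : G.Adj a (P.getD k a)
      · exact Sys.mem_I.2 ⟨hkL, a, haC', haz⟩
      · have z3 : P.getD k a ∉ comp G Q x0 := fun h => haz (z2 h)
        have z4 : ∃ c ∈ comp G Q x0, G.Adj c (P.getD k a) := by
          by_contra hcon
          refine z1 ?_
          rintro (h | h)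
          · exact z3 h
          · exact hcon h
        obtain ⟨j, -, -, -, e4, -, e6, -⟩ := nbrs hQ z3 z4
        exact Sys.mem_I.2 ⟨hkL, _, hW _ (hT _ z3 z4 haz (Tch_adj e4 e6)), e6.symm⟩
    have hle := phi_len hP hkI hphi
    refine ⟨P.take k, hP.1.take k, hP.2.1.sublist (List.take_sublist k P), ?_, ?_⟩
    · rw [List.length_take]
      omega
    · intro v hv
      obtain ⟨m, hm, rfl⟩ := List.getElem_of_mem hv
      rw [List.length_take] at hm
      have := hmin m (by omega)
      rw [List.getD_eq_getElem _ _ (show m < P.length by omega)] at this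
      rw [List.getElem_take]
      exact this
  · refine ⟨P, hP.1, hP.2.1, ?_, ?_⟩
    · refine hP.2.2 (a :: D) ?_ ?_
      · rw [List.isChain_cons]
        exact ⟨fun y hy => hfull y (hDa y (List.mem_of_mem_head? hy)), hD1⟩
      · rw [List.nodup_cons]
        exact ⟨fun h => G.loopless.irrefl a (hfull a (hDa a h)), hD2⟩
    · intro v hv
      by_contra hcon
      obtain ⟨k, hk, rfl⟩ := idx a hv
      exact hZ ⟨k, hk, hcon⟩

/-- **The attachment is complete to the component.** -/
theorem caseB [Fintype V] (h5 : NoP5 G) {Q P : List V} (hQ : Longest G Q) (hP : Longest G P)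
    {x0 a : V} {D : List V} (hD1 : D.IsChain G.Adj) (hD2 : D.Nodup) (hD0 : D ≠ [])
    (hDmax : ∀ D' : List V, D'.IsChain G.Adj → D'.Nodup → (∀ v ∈ D', v ∈ Out G (comp G Q x0)) →
      D'.length ≤ D.length)
    (haC : a ∉ comp G Q x0) (haS : ∃ c ∈ comp G Q x0, G.Adj c a)
    (hDa : ∀ v ∈ D, v ∈ Tch G (Out G (comp G Q x0)) a)
    (hT : ∀ s, s ∉ comp G Q x0 → (∃ c ∈ comp G Q x0, G.Adj c s) → ¬ G.Adj a s →
      Tch G (Out G (comp G Q x0)) s ⊆ Tch G (Out G (comp G Q x0)) a)
    (haP : a ∉ P) : ∀ c ∈ comp G Q x0, G.Adj a c := by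
  intro c' hc'
  by_contra hac'
  have SQ := theSys hQ x0 (G := G)
  obtain ⟨c, hc, hca⟩ := haS
  obtain ⟨c0, hc0, c1, hc1, h01, ha1, ha0⟩ := mixedEdge SQ hc hc' hca.symm hac'
  have hfull := full h5 (out_not (G := G) (C := comp G Q x0)) hc0 hc1 h01 ha1 ha0
  obtain ⟨B, hB1, hB2, hB3, hB4⟩ := initial hQ hP hD1 hD2 hDa hT hfull haP
  have hBne : B ≠ [] := by
    rw [← List.length_pos_iff]
    omega
  obtain ⟨b, B', rfl⟩ := List.exists_cons_of_ne_nil hBne
  rcases hB4 b (by simp) with hbO | hbM
  · -- all vertices are outside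
    have hall : ∀ v ∈ b :: B', v ∈ Out G (comp G Q x0) := by
      refine chain_fwd (U := fun v => v ∈ Out G (comp G Q x0)) _ hB1 ?_ ?_
      · intro u hu
        simp only [List.head?_cons, Option.mem_def, Option.some.injEq] at hu
        exact hu ▸ hbO
      · intro u hu v hv huv huO
        rcases hB4 v hv with h | h
        · exact h
        · exact (out_not u huO v h.1 huv.symm).elim
    have := hDmax _ hB1 hB2 hall
    omega
  · -- all vertices are in the component
    set C := comp G Q x0 with hC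
    set M : Set V := {v | v ∈ C ∧ ¬ G.Adj a v} with hM
    have hall : ∀ v ∈ b :: B', v ∈ M ∧ Rch G M b v := by
      refine chain_fwd (U := fun v => v ∈ M ∧ Rch G M b v) _ hB1 ?_ ?_
      · intro u hu
        simp only [List.head?_cons, Option.mem_def, Option.some.injEq] at hu
        exact hu ▸ ⟨hbM, Relation.ReflTransGen.refl⟩
      · rintro u hu v hv huv ⟨huM, hbu⟩
        rcases hB4 v hv with h | h
        · exact (out_not v h u huM.1 huv).elim
        · exact ⟨h, hbu.trans (Rch.single huM h huv)⟩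
    obtain ⟨u, hu, v, hv, huv, hvM⟩ : ∃ u, (u ∈ M ∧ Rch G M b u) ∧ ∃ v ∈ C, G.Adj u v ∧ v ∉ M := by
      by_contra hcon
      push Not at hcon
      have h1 : {v | v ∈ M ∧ Rch G M b v} = C := by
        refine SQ.conn _ (fun v hv => hv.1.1) ⟨b, hbM, Relation.ReflTransGen.refl⟩ ?_
        rintro u ⟨huM, hbu⟩ v hv huv
        have hvM := hcon u ⟨huM, hbu⟩ v hv huv
        exact ⟨hvM, hbu.trans (Rch.single huM hvM huv)⟩
      have h2 : c1 ∈ {v | v ∈ M ∧ Rch G M b v} := by
        rw [h1]
        exact hc1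
      exact h2.1.2 ha1
    have hav : G.Adj a v := by
      by_contra hcon
      exact hvM ⟨hv, hcon⟩
    obtain ⟨w, D', rfl⟩ := List.exists_cons_of_ne_nil hD0
    have hwT := hDa w (by simp)
    have haw := hfull w hwT
    have hwO := Tch_sub hwT
    have hcomp : ∀ y, Rch G M u y → G.Adj v y := by
      intro y hy
      induction hy with
      | refl => exact huv.symm
      | @tail x y _ h ih =>
        by_contra hvy
        exact h5 w a v x y haw.symm hav ih h.2.2 (fun h' => out_not w hwO v hv h'.symm)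
          (fun h' => out_not w hwO x h.1.1 h'.symm) (fun h' => out_not w hwO y h.2.1.1 h'.symm)
          h.1.2 h.2.1.2 hvy
    have hphi : phi G C ((b :: B').length + 1) :=
      phi_fin (comp_link x0) hv hB1 hB2 (fun x hx => (hall x hx).1.1)
        (fun x hx => hcomp x (hu.2.symm.trans (hall x hx).2))
    -- the first segment
    have hIne : (Sys.I G Q.length (fun i => Q.getD i x0) C).Nonempty := by
      obtain ⟨j, hj, -⟩ := att haC hc hca
      exact ⟨j, hj⟩
    set j := (Sys.I G Q.length (fun i => Q.getD i x0) C).min' hIne with hj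
    have hjI : j ∈ Sys.I G Q.length (fun i => Q.getD i x0) C := min'_mem _ hIne
    have hjL := (Sys.mem_I.1 hjI).1
    have h3 := phi_len hQ hjI hphi
    have h4 := hDmax (Q.take j) (hQ.1.take j) (hQ.2.1.sublist (List.take_sublist j Q)) (by
      intro v hv
      obtain ⟨m, hm, rfl⟩ := List.getElem_of_mem hv
      rw [List.length_take] at hm
      have h6 : m ∉ Sys.I G Q.length (fun i => Q.getD i x0) C := by
        intro h
        have := min'_le _ _ h
        omega
      have h7 := notNC (show m < Q.length by omega) h6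
      rw [List.getD_eq_getElem _ _ (show m < Q.length by omega)] at h7
      rw [List.getElem_take]
      exact h7)
    rw [List.length_take] at h4
    omega

end Pool.Agent.H123.LP
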