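import Mathlib

/-!
# Longest paths in `P₅`-free graphs: the combinatorial core
-/

set_option autoImplicit false

namespace Pool.Agent.H123.LP

open Finset Classical

variable {V : Type*} (G : SimpleGraph V)

/-- no induced path on five vertices, spelled out -/
def NoP5 : Prop := ∀ a b c d e : V, G.Adj a b → G.Adj b c → G.Adj c d → G.Adj d e →
  ¬ G.Adj a c → ¬ G.Adj a d → ¬ G.Adj a e → ¬ G.Adj b d → ¬ G.Adj b e → ¬ G.Adj c e → False

/-- a path `p 0, …, p (L - 1)` and a connected set `C` outside, with the properties which hold for a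
longest path and a component of the rest of the graph -/
structure Sys (L : ℕ) (p : ℕ → V) (C : Set V) : Prop where
  inj : ∀ i < L, ∀ j < L, p i = p j → i = j
  adj : ∀ i, i + 1 < L → G.Adj (p i) (p (i + 1))
  conn : ∀ U : Set V, U ⊆ C → U.Nonempty → (∀ u ∈ U, ∀ v ∈ C, G.Adj u v → v ∈ U) → U = C
  h0 : ∀ c ∈ C, ¬ G.Adj c (p 0)
  hL : ∀ c ∈ C, ¬ G.Adj c (p (L - 1))
  h1 : ∀ i, i + 1 < L → ∀ c ∈ C, ∀ c' ∈ C, G.Adj c (p i) → ¬ G.Adj c' (p (i + 1))
  h2 : ∀ i j, i < j → j + 1 < L → ∀ c ∈ C, ∀ c' ∈ C, G.Adj c (p i) → G.Adj c' (p j) →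
    ¬ G.Adj (p (i + 1)) (p (j + 1))
  h2' : ∀ j, j + 1 < L → ∀ c' ∈ C, G.Adj c' (p j) → ¬ G.Adj (p 0) (p (j + 1))
  h3 : ∀ i j, 1 ≤ i → i < j → j < L → ∀ c ∈ C, ∀ c' ∈ C, G.Adj c (p i) → G.Adj c' (p j) →
    ¬ G.Adj (p (i - 1)) (p (j - 1))
  h3' : ∀ i, 1 ≤ i → i < L → ∀ c ∈ C, G.Adj c (p i) → ¬ G.Adj (p (L - 1)) (p (i - 1))

namespace Sys

variable {G} {L : ℕ} {p : ℕ → V} {C : Set V}

/-- indices of the attachments -/
noncomputable def I (G : SimpleGraph V) (L : ℕ) (p : ℕ → V) (C : Set V) : Finset ℕ :=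
  (range L).filter fun i => ∃ c ∈ C, G.Adj c (p i)

/-- the segment of the index `k` -/
noncomputable def cell (G : SimpleGraph V) (L : ℕ) (p : ℕ → V) (C : Set V) (k : ℕ) : Finset ℕ :=
  (range L).filter fun m => ∀ i ∈ I G L p C, ¬ (min k m ≤ i ∧ i ≤ max k m)

/-- the segments with a neighbour of `w` -/
noncomputable def tau (G : SimpleGraph V) (L : ℕ) (p : ℕ → V) (C : Set V) (w : V) :
    Finset (Finset ℕ) :=
  ((range L).filter fun k => k ∉ I G L p C ∧ G.Adj w (p k)).image (cell G L p C)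

theorem mem_I {i : ℕ} : i ∈ I G L p C ↔ i < L ∧ ∃ c ∈ C, G.Adj c (p i) := by
  simp [I]

theorem mem_cell {k m : ℕ} : m ∈ cell G L p C k ↔
    m < L ∧ ∀ i ∈ I G L p C, ¬ (min k m ≤ i ∧ i ≤ max k m) := by
  simp [cell]

theorem self_mem {k : ℕ} (hk : k < L) (hI : k ∉ I G L p C) : k ∈ cell G L p C k := by
  rw [mem_cell]
  refine ⟨hk, fun i hi h => ?_⟩
  have : i = k := by omega
  exact hI (this ▸ hi)

theorem not_I_of_cell {k m : ℕ} (h : m ∈ cell G L p C k) : m ∉ I G L p C := fun h' =>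
  (mem_cell.1 h).2 m h' (by omega)

theorem cell_eq {k m : ℕ} (hk : k < L) (h : m ∈ cell G L p C k) :
    cell G L p C m = cell G L p C k := by
  have hh := (mem_cell.1 h).2
  ext n
  rw [mem_cell, mem_cell]
  constructor
  · rintro ⟨h1, h2⟩
    refine ⟨h1, fun i hi hc => ?_⟩
    have h3 := hh i hi
    have h4 := h2 i hi
    omega
  · rintro ⟨h1, h2⟩
    refine ⟨h1, fun i hi hc => ?_⟩
    have h3 := hh i hi
    have h4 := h2 i hi
    omega

/-- an index at which a predicate changes -/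
theorem change {Q : ℕ → Prop} {m n : ℕ} (hmn : m ≤ n) (h1 : Q m) (h2 : ¬ Q n) :
    ∃ r, m ≤ r ∧ r < n ∧ Q r ∧ ¬ Q (r + 1) := by
  induction n, hmn using Nat.le_induction with
  | base => exact absurd h1 h2
  | succ n hn ih =>
    by_cases h : Q n
    · exact ⟨n, hn, Nat.lt_succ_self n, h, h2⟩
    · obtain ⟨r, h3, h4, h5, h6⟩ := ih h
      exact ⟨r, h3, by omega, h5, h6⟩

theorem change' {Q : ℕ → Prop} {m n : ℕ} (hmn : m ≤ n) (h1 : ¬ Q m) (h2 : Q n) :
    ∃ r, m ≤ r ∧ r < n ∧ ¬ Q r ∧ Q (r + 1) := by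
  obtain ⟨r, h3, h4, h5, h6⟩ := change (Q := fun x => ¬ Q x) hmn h1 (by simpa using h2)
  exact ⟨r, h3, h4, h5, by simpa using h6⟩

/-- a vertex with a neighbour and a non-neighbour in a segment has them in consecutive places -/
theorem edge (S : Sys G L p C) {w : V} {k m m' : ℕ} (hk : k < L) (hm : m ∈ cell G L p C k)
    (hm' : m' ∈ cell G L p C k) (h1 : G.Adj w (p m)) (h2 : ¬ G.Adj w (p m')) :
    ∃ y ∈ cell G L p C k, ∃ y' ∈ cell G L p C k, G.Adj (p y) (p y') ∧ G.Adj w (p y) ∧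
      ¬ G.Adj w (p y') := by
  have hc : ∀ r, (min m m' ≤ r ∧ r ≤ max m m') → r ∈ cell G L p C k := by
    intro r hr
    have a1 := mem_cell.1 hm
    have a2 := mem_cell.1 hm'
    rw [mem_cell]
    refine ⟨by omega, fun i hi hc => ?_⟩
    have := a1.2 i hi
    have := a2.2 i hi
    omega
  have hm1 := (mem_cell.1 hm).1
  have hm2 := (mem_cell.1 hm').1
  rcases le_total m m' with h | h
  · obtain ⟨r, h3, h4, h5, h6⟩ := change (Q := fun x => G.Adj w (p x)) h h1 h2
    exact ⟨r, hc r (by omega), r + 1, hc _ (by omega), S.adj r (by omega), h5, h6⟩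
  · obtain ⟨r, h3, h4, h5, h6⟩ := change' (Q := fun x => G.Adj w (p x)) h h2 h1
    exact ⟨r + 1, hc _ (by omega), r, hc r (by omega), (S.adj r (by omega)).symm, h6, h5⟩

theorem notC (S : Sys G L p C) {k : ℕ} (hk : k < L) (hI : k ∉ I G L p C) {c : V} (hc : c ∈ C) :
    ¬ G.Adj c (p k) := fun h => hI (mem_I.2 ⟨hk, c, hc, h⟩)

theorem notC' (S : Sys G L p C) {k : ℕ} (hk : k < L) (hI : k ∉ I G L p C) {c : V} (hc : c ∈ C) :
    ¬ G.Adj (p k) c := fun h => S.notC hk hI hc h.symm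

theorem succ_lt (S : Sys G L p C) {i : ℕ} (hi : i ∈ I G L p C) : i + 1 < L := by
  obtain ⟨h1, c, hc, h2⟩ := mem_I.1 hi
  by_contra h
  have : i = L - 1 := by omega
  subst this
  exact S.hL c hc h2

theorem pos (S : Sys G L p C) {i : ℕ} (hi : i ∈ I G L p C) : 1 ≤ i := by
  obtain ⟨h1, c, hc, h2⟩ := mem_I.1 hi
  by_contra h
  have : i = 0 := by omega
  subst this
  exact S.h0 c hc h2

theorem succ_not (S : Sys G L p C) {i : ℕ} (hi : i ∈ I G L p C) : i + 1 ∉ I G L p C := by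
  intro h
  obtain ⟨h1, c, hc, h2⟩ := mem_I.1 hi
  obtain ⟨h1', c', hc', h2'⟩ := mem_I.1 h
  exact S.h1 i h1' c hc c' hc' h2 h2'

theorem pred_not (S : Sys G L p C) {i : ℕ} (hi : i ∈ I G L p C) : i - 1 ∉ I G L p C := by
  intro h
  have h1 := S.succ_not h
  have := S.pos hi
  rw [show i - 1 + 1 = i by omega] at h1
  exact h1 hi

/-- the vertex `p z` has a non-neighbour in every segment -/
def Ind (G : SimpleGraph V) (L : ℕ) (p : ℕ → V) (C : Set V) (z : ℕ) : Prop :=
  ∀ k < L, k ∉ I G L p C → ∃ m ∈ cell G L p C k, ¬ G.Adj (p z) (p m)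

/-- the first index of a segment -/
theorem first (S : Sys G L p C) {k : ℕ} (hk : k < L) (hI : k ∉ I G L p C) :
    ∃ m ∈ cell G L p C k, m = 0 ∨ (1 ≤ m ∧ m - 1 ∈ I G L p C) := by
  have hne : (cell G L p C k).Nonempty := ⟨k, self_mem hk hI⟩
  refine ⟨_, min'_mem _ hne, ?_⟩
  set m := (cell G L p C k).min' hne with hm
  have hmc : m ∈ cell G L p C k := min'_mem _ hne
  by_contra hcon
  push Not at hcon
  have h1 : 1 ≤ m := by omega
  have h2 := hcon.2 h1
  have h3 : m - 1 ∈ cell G L p C k := by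
    rw [← cell_eq hk hmc, mem_cell]
    have := (mem_cell.1 hmc).1
    refine ⟨by omega, fun i hi hc => ?_⟩
    have hmI := not_I_of_cell hmc
    have : i = m ∨ i = m - 1 := by omega
    rcases this with rfl | h
    · exact hmI hi
    · exact h2 (h ▸ hi)
  have := min'_le _ _ h3
  omega

theorem last (S : Sys G L p C) {k : ℕ} (hk : k < L) (hI : k ∉ I G L p C) :
    ∃ m ∈ cell G L p C k, m = L - 1 ∨ m + 1 ∈ I G L p C := by
  have hne : (cell G L p C k).Nonempty := ⟨k, self_mem hk hI⟩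
  refine ⟨_, max'_mem _ hne, ?_⟩
  set m := (cell G L p C k).max' hne with hm
  have hmc : m ∈ cell G L p C k := max'_mem _ hne
  by_contra hcon
  push Not at hcon
  have hmL := (mem_cell.1 hmc).1
  have h3 : m + 1 ∈ cell G L p C k := by
    rw [← cell_eq hk hmc, mem_cell]
    refine ⟨by omega, fun i hi hc => ?_⟩
    have hmI := not_I_of_cell hmc
    have : i = m ∨ i = m + 1 := by omega
    rcases this with rfl | h
    · exact hmI hi
    · exact hcon.2 (h ▸ hi)
  have := le_max' _ _ h3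
  omega

/-- successors of attachments are not adjacent to the first vertices of segments -/
theorem succ_first (S : Sys G L p C) {j m : ℕ} (hj : j ∈ I G L p C)
    (hm : m = 0 ∨ (1 ≤ m ∧ m - 1 ∈ I G L p C)) (hmL : m < L) : ¬ G.Adj (p (j + 1)) (p m) := by
  obtain ⟨h1, c, hc, h2⟩ := mem_I.1 hj
  have h3 := S.succ_lt hj
  rcases hm with rfl | ⟨hm, hmI⟩
  · exact fun h => S.h2' j h3 c hc h2 h.symm
  · obtain ⟨h1', c', hc', h2'⟩ := mem_I.1 hmI
    obtain ⟨i, rfl⟩ : ∃ i, m = i + 1 := ⟨m - 1, by omega⟩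
    rw [Nat.add_sub_cancel] at h2' hmI
    rcases lt_trichotomy i j with h | h | h
    · exact fun h4 => S.h2 i j h h3 c' hc' c hc h2' h2 h4.symm
    · subst h
      exact G.loopless.irrefl _
    · exact fun h4 => S.h2 j i h (by omega) c hc c' hc' h2 h2' h4

theorem ind_succ (S : Sys G L p C) {j : ℕ} (hj : j ∈ I G L p C) : Ind G L p C (j + 1) := by
  intro k hk hI
  obtain ⟨m, hm, h⟩ := S.first hk hI
  exact ⟨m, hm, S.succ_first hj h (mem_cell.1 hm).1⟩

theorem ind_pred (S : Sys G L p C) {j : ℕ} (hj : j ∈ I G L p C) : Ind G L p C (j - 1) := by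
  intro k hk hI
  obtain ⟨m, hm, h⟩ := S.last hk hI
  refine ⟨m, hm, ?_⟩
  obtain ⟨h1, c, hc, h2⟩ := mem_I.1 hj
  have h3 := S.pos hj
  have hmL := (mem_cell.1 hm).1
  rcases h with rfl | hmI
  · exact fun h => S.h3' j h3 h1 c hc h2 h.symm
  · obtain ⟨h1', c', hc', h2'⟩ := mem_I.1 hmI
    rcases lt_trichotomy j (m + 1) with h | h | h
    · have := S.h3 j (m + 1) h3 h h1' c hc c' hc' h2 h2'
      rwa [Nat.add_sub_cancel] at this
    · have : j - 1 = m := by omega
      rw [this]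
      exact G.loopless.irrefl _
    · have := S.h3 (m + 1) j (by omega) h h1 c' hc' c hc h2' h2
      rw [Nat.add_sub_cancel] at this
      exact fun h4 => this h4.symm

/-- if `a` has a neighbour `y` outside, every vertex of `C` is adjacent to `a` or to a neighbour of
`a` in `C` -/
theorem near (S : Sys G L p C) (h5 : NoP5 G) {a y : V} (hya : G.Adj y a) (hyC : ∀ c ∈ C, ¬ G.Adj y c)
    (hex : ∃ c ∈ C, G.Adj a c) :
    ∀ w ∈ C, G.Adj a w ∨ ∃ u ∈ C, G.Adj a u ∧ G.Adj u w := by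
  have key : {w | w ∈ C ∧ (G.Adj a w ∨ ∃ u ∈ C, G.Adj a u ∧ G.Adj u w)} = C := by
    refine S.conn _ (fun w hw => hw.1) ?_ ?_
    · obtain ⟨c, hc, hac⟩ := hex
      exact ⟨c, hc, Or.inl hac⟩
    · rintro w ⟨hw, hw'⟩ v hv hwv
      refine ⟨hv, ?_⟩
      by_cases hav : G.Adj a v
      · exact Or.inl hav
      right
      by_cases haw : G.Adj a w
      · exact ⟨w, hw, haw, hwv⟩
      rcases hw' with h | ⟨u, hu, hau, huw⟩
      · exact absurd h haw
      by_cases huv : G.Adj u v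
      · exact ⟨u, hu, hau, huv⟩
      exact (h5 y a u w v hya hau huw hwv (hyC u hu) (hyC w hw) (hyC v hv) haw hav huv).elim
  intro w hw
  have : w ∈ {w | w ∈ C ∧ (G.Adj a w ∨ ∃ u ∈ C, G.Adj a u ∧ G.Adj u w)} := by rw [key]; exact hw
  exact this.2

theorem mem_tau {w : V} {T : Finset ℕ} : T ∈ tau G L p C w ↔
    ∃ k < L, k ∉ I G L p C ∧ G.Adj w (p k) ∧ cell G L p C k = T := by
  simp only [tau, mem_image, mem_filter, mem_range]
  constructor
  · rintro ⟨k, ⟨h1, h2, h3⟩, h4⟩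
    exact ⟨k, h1, h2, h3, h4⟩
  · rintro ⟨k, h1, h2, h3, h4⟩
    exact ⟨k, ⟨h1, h2, h3⟩, h4⟩

/-- number of indices of neighbours of `w` on the path -/
noncomputable def num (G : SimpleGraph V) (L : ℕ) (p : ℕ → V) (w : V) : ℕ :=
  ((range L).filter fun k => G.Adj w (p k)).card

/-- An attachment which touches the segments next to all attachments not adjacent to it has many
neighbours on the path. -/
theorem main_of (S : Sys G L p C) {i0 : ℕ} (hi0 : i0 ∈ I G L p C)
    (hcl : ∀ j ∈ I G L p C, ¬ G.Adj (p i0) (p j) →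
      cell G L p C (j + 1) ∈ tau G L p C (p i0) ∧ cell G L p C (j - 1) ∈ tau G L p C (p i0)) :
    (I G L p C).card + 1 ≤ num G L p (p i0) := by
  set X := (I G L p C).filter fun j => ¬ G.Adj (p i0) (p j) with hX
  have hi0X : i0 ∈ X := by
    rw [hX, mem_filter]
    exact ⟨hi0, G.loopless.irrefl _⟩
  have hsucc : ∀ j ∈ X, cell G L p C (j + 1) ∈ tau G L p C (p i0) := by
    intro j hj
    rw [hX, mem_filter] at hj
    exact (hcl j hj.1 hj.2).1
  have hXne : X.Nonempty := ⟨i0, hi0X⟩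
  set j1 := X.min' hXne with hj1
  have hj1X : j1 ∈ X := min'_mem _ hXne
  have hj1I : j1 ∈ I G L p C := (mem_filter.1 hj1X).1
  have hj1p := S.pos hj1I
  have hpred : cell G L p C (j1 - 1) ∈ tau G L p C (p i0) :=
    (hcl j1 hj1I (mem_filter.1 hj1X).2).2
  have hinj : Set.InjOn (fun j => cell G L p C (j + 1)) (X : Set ℕ) := by
    intro j hj j' hj' h
    simp only at h
    have hjI := (mem_filter.1 (mem_coe.1 hj)).1
    have hjI' := (mem_filter.1 (mem_coe.1 hj')).1
    have h1 : j + 1 ∈ cell G L p C (j' + 1) := h ▸ self_mem (S.succ_lt hjI) (S.succ_not hjI)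
    have h2 := (mem_cell.1 h1).2
    have h3 := h2 j hjI
    have h4 := h2 j' hjI'
    omega
  have hnot : cell G L p C (j1 - 1) ∉ X.image fun j => cell G L p C (j + 1) := by
    intro h
    obtain ⟨j, hj, h'⟩ := mem_image.1 h
    have hjI := (mem_filter.1 hj).1
    have hle : j1 ≤ j := min'_le _ _ hj
    have h1 : j + 1 ∈ cell G L p C (j1 - 1) := h' ▸ self_mem (S.succ_lt hjI) (S.succ_not hjI)
    have h2 := (mem_cell.1 h1).2 j1 hj1I
    omega
  have hcard : X.card + 1 ≤ (tau G L p C (p i0)).card := by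
    rw [← card_image_of_injOn hinj, ← card_insert_of_notMem hnot]
    refine card_le_card ?_
    intro T hT
    rcases mem_insert.1 hT with rfl | hT
    · exact hpred
    · obtain ⟨j, hj, rfl⟩ := mem_image.1 hT
      exact hsucc j hj
  have hcard2 : (tau G L p C (p i0)).card ≤
      ((range L).filter fun k => k ∉ I G L p C ∧ G.Adj (p i0) (p k)).card := card_image_le
  have hcard3 : ((I G L p C).filter fun j => G.Adj (p i0) (p j)).card + X.card =
      (I G L p C).card := by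
    rw [hX]
    exact card_filter_add_card_filter_not (s := I G L p C) (fun j => G.Adj (p i0) (p j))
  have hcard4 : ((range L).filter fun k => k ∉ I G L p C ∧ G.Adj (p i0) (p k)).card +
      ((I G L p C).filter fun j => G.Adj (p i0) (p j)).card ≤ num G L p (p i0) := by
    rw [num, ← card_union_of_disjoint]
    · refine card_le_card ?_
      intro k hk
      rcases mem_union.1 hk with h | h
      · rw [mem_filter] at h ⊢
        exact ⟨h.1, h.2.2⟩
      · rw [mem_filter] at h ⊢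
        exact ⟨mem_range.2 (mem_I.1 h.1).1, h.2⟩
    · rw [disjoint_left]
      intro k h1 h2
      exact (mem_filter.1 h1).2.1 (mem_filter.1 h2).1
  omega

end Sys

end Pool.Agent.H123.LP
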