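import Pool.Agent.H123.LP.Fin

/-!
# Induced paths and longest paths
-/

set_option autoImplicit false

namespace Pool.Agent.H123.LP

variable {V : Type*} {G : SimpleGraph V}

theorem noP5 (h : IsEmpty (SimpleGraph.pathGraph 5 ↪g G)) : NoP5 G := by
  intro a b c d e hab hbc hcd hde hac had hae hbd hbe hce
  refine h.elim' ?_
  have n1 : ∀ x, ¬ G.Adj x x := fun x => G.loopless.irrefl x
  have hba := hab.symm
  have hcb := hbc.symm
  have hdc := hcd.symm
  have hed := hde.symm
  have hca : ¬ G.Adj c a := fun h => hac h.symm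
  have hda : ¬ G.Adj d a := fun h => had h.symm
  have hea : ¬ G.Adj e a := fun h => hae h.symm
  have hdb : ¬ G.Adj d b := fun h => hbd h.symm
  have heb : ¬ G.Adj e b := fun h => hbe h.symm
  have hec : ¬ G.Adj e c := fun h => hce h.symm
  have key : ∀ i j : Fin 5, G.Adj ((![a, b, c, d, e] : Fin 5 → V) i) (![a, b, c, d, e] j) ↔
      (SimpleGraph.pathGraph 5).Adj i j := by
    intro i j
    rw [SimpleGraph.pathGraph_adj]
    fin_cases i <;> fin_cases j <;>
      simp [hab, hbc, hcd, hde, hac, had, hae, hbd, hbe, hce, hba, hcb, hdc, hed, hca, hda, hea, hdb,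
        heb, hec, n1]
  refine ⟨⟨![a, b, c, d, e], ?_⟩, fun {i j} => key i j⟩
  intro i j hij
  have h1 : ∀ k : Fin 5, (i.val + 1 = k.val ∨ k.val + 1 = i.val) ↔
      (j.val + 1 = k.val ∨ k.val + 1 = j.val) := by
    intro k
    have e1 := key i k
    have e2 := key j k
    rw [hij] at e1
    rw [SimpleGraph.pathGraph_adj] at e1 e2
    exact e1.symm.trans e2
  exact (by decide : ∀ i j : Fin 5, (∀ k : Fin 5, (i.val + 1 = k.val ∨ k.val + 1 = i.val) ↔
    (j.val + 1 = k.val ∨ k.val + 1 = j.val)) → i = j) i j h1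

/-- A longest path. -/
def IsLongest (G : SimpleGraph V) {u v : V} (p : G.Walk u v) : Prop :=
  p.IsPath ∧ ∀ (u' v' : V) (q : G.Walk u' v'), q.IsPath → q.length ≤ p.length

theorem IsLongest.longest {u v : V} {p : G.Walk u v} (h : IsLongest G p) :
    Longest G p.support := by
  refine ⟨p.isChain_adj_support, h.1.support_nodup, fun l' h1 h2 => ?_⟩
  rcases eq_or_ne l' [] with rfl | hne
  · simp
  · have h3 := h.2 _ _ (SimpleGraph.Walk.ofSupport l' hne h1)
      (by rw [SimpleGraph.Walk.isPath_def, SimpleGraph.Walk.support_ofSupport]; exact h2)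
    have h4 := (SimpleGraph.Walk.ofSupport l' hne h1).length_support
    rw [SimpleGraph.Walk.support_ofSupport] at h4
    rw [SimpleGraph.Walk.length_support]
    omega

end Pool.Agent.H123.LP
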