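import Pool.Agent.H123.LP.Core

/-!
# Exchange arguments for longest paths
-/

set_option autoImplicit false

namespace Pool.Agent.H123.LP

open Classical

variable {V : Type*} (G : SimpleGraph V)

/-- a longest path, as a list of vertices -/
def Longest (l : List V) : Prop :=
  l.IsChain G.Adj ∧ l.Nodup ∧ ∀ l' : List V, l'.IsChain G.Adj → l'.Nodup → l'.length ≤ l.length

/-- any two vertices of `C` are joined by a path in `C` -/
def Link (C : Set V) : Prop :=
  ∀ c ∈ C, ∀ c' ∈ C, ∃ R : List V, R.IsChain G.Adj ∧ R.Nodup ∧ (∀ v ∈ R, v ∈ C) ∧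
    R.head? = some c ∧ R.getLast? = some c'

variable {G} {l : List V} {C : Set V}

theorem Longest.reverse (h : Longest G l) : Longest G l.reverse := by
  refine ⟨?_, List.nodup_reverse.2 h.2.1, fun l' h1 h2 => ?_⟩
  · rw [List.isChain_reverse]
    exact h.1.imp fun _ _ h => h.symm
  · rw [List.length_reverse]
    exact h.2.2 l' h1 h2

/-- no longer path -/
theorem Longest.contra (h : Longest G l) (hC : ∀ c ∈ C, c ∉ l) {R l' : List V} (hne : R ≠ [])
    (hR : R.Nodup) (hRC : ∀ v ∈ R, v ∈ C) (hl' : l'.IsChain G.Adj) (hp : l'.Perm (R ++ l)) :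
    False := by
  have h1 : (R ++ l).Nodup := by
    rw [List.nodup_append]
    refine ⟨hR, h.2.1, ?_⟩
    rintro a ha b hb rfl
    exact hC a (hRC a ha) hb
  have h2 := h.2.2 l' hl' (hp.nodup_iff.2 h1)
  rw [hp.length_eq, List.length_append] at h2
  have := List.length_pos_iff.2 hne
  omega

theorem ex0 (h : Longest G l) (hC : ∀ c ∈ C, c ∉ l) {s : V} {Y : List V} (hl : l = s :: Y) {c : V}
    (hc : c ∈ C) : ¬ G.Adj c s := by
  intro hcs
  refine h.contra hC (R := [c]) (l' := c :: s :: Y) (by simp) (by simp)
    (by simpa using hc) ?_ ?_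
  · rw [List.isChain_cons_cons]
    exact ⟨hcs, hl ▸ h.1⟩
  · rw [hl]
    exact List.Perm.refl _

theorem ex1 (h : Longest G l) (hC : ∀ c ∈ C, c ∉ l) (hL : Link G C) {a b : V} {X Y : List V}
    (hl : l = X ++ a :: b :: Y) {c c' : V} (hc : c ∈ C) (hc' : c' ∈ C) (hca : G.Adj c a) :
    ¬ G.Adj c' b := by
  intro hcb
  obtain ⟨R, h1, h2, h3, h4, h5⟩ := hL c hc c' hc'
  have hne : R ≠ [] := by
    rintro rfl
    simp at h4
  have hch := h.1
  rw [hl, List.isChain_split, List.isChain_cons_cons] at hch
  refine h.contra hC (l' := X ++ a :: (R ++ b :: Y)) hne h2 h3 ?_ ?_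
  · rw [List.isChain_split]
    refine ⟨hch.1, ?_⟩
    rw [← List.cons_append, List.isChain_append]
    refine ⟨?_, hch.2.2, ?_⟩
    · rw [List.isChain_cons]
      refine ⟨?_, h1⟩
      intro y hy
      rw [h4] at hy
      simp only [Option.mem_def, Option.some.injEq] at hy
      subst hy
      exact hca.symm
    · intro x hx y hy
      rw [List.getLast?_cons, h5] at hx
      simp at hx hy
      subst hx
      subst hy
      exact hcb
  · rw [hl, List.perm_iff_count]
    intro v
    simp only [List.count_append, List.count_cons]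
    omega

/-- reversal of a part of the path -/
theorem chain_rev {b s t : V} {Y Z : List V} (h1 : (s :: Y ++ b :: t :: Z).IsChain G.Adj)
    (hst : G.Adj s t) : (b :: ((s :: Y).reverse ++ t :: Z)).IsChain G.Adj := by
  rw [List.isChain_split] at h1
  have h2 : (((s :: Y) ++ [b]).reverse ++ [t]).IsChain G.Adj := by
    rw [← List.reverse_cons, List.isChain_reverse]
    have : (t :: (s :: Y ++ [b])).IsChain G.Adj := by
      rw [List.cons_append, List.isChain_cons_cons]
      exact ⟨hst.symm, h1.1⟩
    exact this.imp fun _ _ h => h.symm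
  have h3 : b :: ((s :: Y).reverse ++ t :: Z) = ((s :: Y) ++ [b]).reverse ++ t :: Z := by
    simp
  rw [h3, List.isChain_split]
  refine ⟨h2, ?_⟩
  have := h1.2
  rw [List.isChain_cons_cons] at this
  exact this.2

theorem ex2 (h : Longest G l) (hC : ∀ c ∈ C, c ∉ l) (hL : Link G C) {a b s t : V} {X Y Z : List V}
    (hl : l = X ++ a :: (s :: Y ++ b :: t :: Z)) {c c' : V} (hc : c ∈ C) (hc' : c' ∈ C)
    (hca : G.Adj c a) (hcb : G.Adj c' b) : ¬ G.Adj s t := by
  intro hst
  obtain ⟨R, h1, h2, h3, h4, h5⟩ := hL c hc c' hc'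
  have hne : R ≠ [] := by
    rintro rfl
    simp at h4
  have hch := h.1
  rw [hl, List.isChain_split] at hch
  have hch2 : (s :: Y ++ b :: t :: Z).IsChain G.Adj := by
    have := hch.2
    rw [List.isChain_cons] at this
    exact this.2
  refine h.contra hC (l' := X ++ a :: (R ++ b :: ((s :: Y).reverse ++ t :: Z))) hne h2 h3 ?_ ?_
  · rw [List.isChain_split]
    refine ⟨hch.1, ?_⟩
    rw [← List.cons_append, List.isChain_append]
    refine ⟨?_, chain_rev hch2 hst, ?_⟩
    · rw [List.isChain_cons]
      refine ⟨?_, h1⟩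
      intro y hy
      rw [h4] at hy
      simp only [Option.mem_def, Option.some.injEq] at hy
      subst hy
      exact hca.symm
    · intro x hx y hy
      rw [List.getLast?_cons, h5] at hx
      simp at hx hy
      subst hx
      subst hy
      exact hcb
  · rw [hl, List.perm_iff_count]
    intro v
    simp only [List.count_append, List.count_cons, List.count_reverse]
    omega

theorem ex2' (h : Longest G l) (hC : ∀ c ∈ C, c ∉ l) {b s t : V} {Y Z : List V}
    (hl : l = s :: Y ++ b :: t :: Z) {c' : V} (hc' : c' ∈ C)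
    (hcb : G.Adj c' b) : ¬ G.Adj s t := by
  intro hst
  have hch := h.1
  rw [hl] at hch
  refine h.contra hC (R := [c']) (l' := c' :: b :: ((s :: Y).reverse ++ t :: Z)) (by simp) (by simp)
    (by simpa using hc') ?_ ?_
  · rw [List.isChain_cons_cons]
    exact ⟨hcb, chain_rev hch hst⟩
  · rw [hl, List.perm_iff_count]
    intro v
    simp only [List.count_append, List.count_cons, List.count_reverse, List.count_nil]
    omega

/-! ### the same with indices -/

theorem ix0 (h : Longest G l) (hC : ∀ c ∈ C, c ∉ l) (x : V) {c : V} (hpos : 0 < l.length)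
    (hc : c ∈ C) : ¬ G.Adj c (l.getD 0 x) := by
  have h1 : l = l[0] :: l.drop 1 := by
    conv_lhs => rw [← List.drop_zero (l := l), List.drop_eq_getElem_cons hpos]
  rw [List.getD_eq_getElem _ _ hpos]
  exact ex0 h hC h1 hc

theorem ix1 (h : Longest G l) (hC : ∀ c ∈ C, c ∉ l) (hL : Link G C) (x : V) (i : ℕ)
    (hi : i + 1 < l.length) {c c' : V} (hc : c ∈ C) (hc' : c' ∈ C)
    (hca : G.Adj c (l.getD i x)) : ¬ G.Adj c' (l.getD (i + 1) x) := by
  have h1 : l = l.take i ++ l[i] :: l[i + 1] :: l.drop (i + 2) := by
    rw [← List.drop_eq_getElem_cons hi, ← List.drop_eq_getElem_cons (by omega), List.take_append_drop]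
  rw [List.getD_eq_getElem _ _ hi]
  rw [List.getD_eq_getElem _ _ (by omega)] at hca
  exact ex1 h hC hL h1 hc hc' hca

theorem ix2 (h : Longest G l) (hC : ∀ c ∈ C, c ∉ l) (hL : Link G C) (x : V) (i j : ℕ)
    (hij : i < j) (hj : j + 1 < l.length) {c c' : V} (hc : c ∈ C) (hc' : c' ∈ C)
    (hca : G.Adj c (l.getD i x)) (hcb : G.Adj c' (l.getD j x)) :
    ¬ G.Adj (l.getD (i + 1) x) (l.getD (j + 1) x) := by
  rcases Nat.lt_or_ge (i + 1) j with hij' | hij'
  · have h1 : l = l.take i ++ l[i] :: (l[i + 1] :: (l.drop (i + 2)).take (j - (i + 2)) ++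
        l[j] :: l[j + 1] :: l.drop (j + 2)) := by
      rw [← List.drop_eq_getElem_cons hj, ← List.drop_eq_getElem_cons (by omega)]
      have h2 : l.drop j = (l.drop (i + 2)).drop (j - (i + 2)) := by
        rw [List.drop_drop]
        congr 1
        omega
      rw [h2, List.cons_append, List.take_append_drop, ← List.drop_eq_getElem_cons (by omega),
        ← List.drop_eq_getElem_cons (by omega), List.take_append_drop]
    rw [List.getD_eq_getElem _ _ hj, List.getD_eq_getElem _ _ (show i + 1 < l.length by omega)]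
    rw [List.getD_eq_getElem _ _ (show i < l.length by omega)] at hca
    rw [List.getD_eq_getElem _ _ (show j < l.length by omega)] at hcb
    exact ex2 h hC hL h1 hc hc' hca hcb
  · obtain rfl : j = i + 1 := by omega
    exact (ix1 h hC hL x i (by omega) hc hc' hca hcb).elim

theorem ix2' (h : Longest G l) (hC : ∀ c ∈ C, c ∉ l) (x : V) (j : ℕ)
    (hj : j + 1 < l.length) {c' : V} (hc' : c' ∈ C) (hcb : G.Adj c' (l.getD j x)) :
    ¬ G.Adj (l.getD 0 x) (l.getD (j + 1) x) := by
  rcases Nat.eq_zero_or_pos j with rfl | hj0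
  · exact (ix0 h hC x (by omega) hc' hcb).elim
  · have h1 : l = l[0] :: (l.drop 1).take (j - 1) ++ l[j] :: l[j + 1] :: l.drop (j + 2) := by
      rw [← List.drop_eq_getElem_cons hj, ← List.drop_eq_getElem_cons (by omega)]
      have h2 : l.drop j = (l.drop 1).drop (j - 1) := by
        rw [List.drop_drop]
        congr 1
        omega
      rw [h2, List.cons_append, List.take_append_drop]
      conv_lhs => rw [← List.drop_zero (l := l), List.drop_eq_getElem_cons (show 0 < l.length by omega)]
    rw [List.getD_eq_getElem _ _ hj, List.getD_eq_getElem _ _ (show 0 < l.length by omega)]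
    rw [List.getD_eq_getElem _ _ (show j < l.length by omega)] at hcb
    exact ex2' h hC h1 hc' hcb

theorem getD_rev (x : V) {k : ℕ} (hk : k < l.length) :
    l.reverse.getD k x = l.getD (l.length - 1 - k) x := by
  rw [List.getD_eq_getElem _ _ (by simpa using hk), List.getD_eq_getElem _ _ (by omega),
    List.getElem_reverse]

/-- a longest path and a connected set outside form a system -/
theorem sys (h : Longest G l) (hpos : 0 < l.length) (hC : ∀ c ∈ C, c ∉ l) (hL : Link G C)
    (hconn : ∀ U : Set V, U ⊆ C → U.Nonempty → (∀ u ∈ U, ∀ v ∈ C, G.Adj u v → v ∈ U) → U = C)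
    (x : V) : Sys G l.length (fun i => l.getD i x) C where
  inj := by
    intro i hi j hj hij
    rw [List.getD_eq_getElem _ _ hi, List.getD_eq_getElem _ _ hj] at hij
    exact (List.Nodup.getElem_inj_iff h.2.1).1 hij
  adj := by
    intro i hi
    rw [List.getD_eq_getElem _ _ hi, List.getD_eq_getElem _ _ (by omega)]
    exact (List.isChain_iff_getElem.1 h.1) i (by omega)
  conn := hconn
  h0 := fun c hc => ix0 h hC x hpos hc
  hL := by
    intro c hc
    have h1 := ix0 h.reverse (C := C) (by simpa using hC) x (by simpa using hpos) hc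
    rw [getD_rev x hpos, Nat.sub_zero] at h1
    exact h1
  h1 := fun i hi c hc c' hc' hca => ix1 h hC hL x i hi hc hc' hca
  h2 := fun i j hij hj c hc c' hc' hca hcb => ix2 h hC hL x i j hij hj hc hc' hca hcb
  h2' := fun j hj c' hc' hcb => ix2' h hC x j hj hc' hcb
  h3 := by
    intro i j hi hij hj c hc c' hc' hca hcb
    have e1 : l.reverse.getD (l.length - 1 - i) x = l.getD i x := by
      rw [getD_rev x (by omega)]
      congr 1
      omega
    have e2 : l.reverse.getD (l.length - 1 - j) x = l.getD j x := by
      rw [getD_rev x (by omega)]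
      congr 1
      omega
    have e3 : l.reverse.getD (l.length - 1 - i + 1) x = l.getD (i - 1) x := by
      rw [getD_rev x (by omega)]
      congr 1
      omega
    have e4 : l.reverse.getD (l.length - 1 - j + 1) x = l.getD (j - 1) x := by
      rw [getD_rev x (by omega)]
      congr 1
      omega
    have h1 := ix2 h.reverse (C := C) (by simpa using hC) hL x (l.length - 1 - j)
      (l.length - 1 - i) (by omega) (by rw [List.length_reverse]; omega) hc' hc
      (by rw [e2]; exact hcb) (by rw [e1]; exact hca)
    rw [e3, e4] at h1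
    exact fun h4 => h1 h4.symm
  h3' := by
    intro i hi hiL c hc hca
    have e1 : l.reverse.getD (l.length - 1 - i) x = l.getD i x := by
      rw [getD_rev x (by omega)]
      congr 1
      omega
    have e3 : l.reverse.getD (l.length - 1 - i + 1) x = l.getD (i - 1) x := by
      rw [getD_rev x (by omega)]
      congr 1
      omega
    have e0 : l.reverse.getD 0 x = l.getD (l.length - 1) x := by
      rw [getD_rev x hpos]
      congr 1
    have h1 := ix2' h.reverse (C := C) (by simpa using hC) x (l.length - 1 - i)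
      (by rw [List.length_reverse]; omega) hc (by rw [e1]; exact hca)
    rw [e3, e0] at h1
    exact h1

end Pool.Agent.H123.LP
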