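import Pool.Agent.H123.LP.Ex

/-!
# Components of the rest of the graph
-/

set_option autoImplicit false

namespace Pool.Agent.H123.LP

open Finset Classical

variable {V : Type*} {G : SimpleGraph V} {l : List V}

/-- the component of `x` in the rest of the graph -/
def comp (G : SimpleGraph V) (l : List V) (x : V) : Set V :=
  {v | ∃ (hx : x ∉ l) (hv : v ∉ l), (G.induce {v | v ∉ l}).Reachable ⟨x, hx⟩ ⟨v, hv⟩}

theorem comp_not {x : V} : ∀ c ∈ comp G l x, c ∉ l := fun _ hc => hc.2.1

theorem self_comp {x : V} (hx : x ∉ l) : x ∈ comp G l x := ⟨hx, hx, SimpleGraph.Reachable.refl _⟩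

theorem comp_closed {x c v : V} (hc : c ∈ comp G l x) (h : G.Adj c v) (hv : v ∉ l) :
    v ∈ comp G l x := by
  obtain ⟨hx, hc', hr⟩ := hc
  refine ⟨hx, hv, hr.trans ?_⟩
  exact SimpleGraph.Adj.reachable (by simpa using h)

theorem comp_link (x : V) : Link G (comp G l x) := by
  rintro c ⟨hx, hc, h1⟩ c' ⟨hx', hc', h2⟩
  obtain ⟨w, hw⟩ := (h1.symm.trans h2).exists_isPath
  refine ⟨w.support.map Subtype.val, ?_, ?_, ?_, ?_, ?_⟩
  · rw [List.isChain_map]
    exact w.isChain_adj_support.imp fun a b h => by simpa using h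
  · exact hw.support_nodup.map Subtype.val_injective
  · intro v hv
    obtain ⟨⟨v', hv'⟩, hm, rfl⟩ := List.mem_map.1 hv
    refine ⟨hx, hv', h1.trans ?_⟩
    exact ⟨w.takeUntil _ hm⟩
  · rw [List.head?_map, List.head?_eq_some_head w.support_ne_nil, SimpleGraph.Walk.head_support]
    rfl
  · rw [List.getLast?_map, List.getLast?_eq_some_getLast w.support_ne_nil,
      SimpleGraph.Walk.getLast_support]
    rfl

theorem comp_conn (x : V) : ∀ U : Set V, U ⊆ comp G l x → U.Nonempty →
    (∀ u ∈ U, ∀ v ∈ comp G l x, G.Adj u v → v ∈ U) → U = comp G l x := by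
  intro U hU ⟨u, hu⟩ hcl
  refine Set.Subset.antisymm hU ?_
  intro v hv
  by_contra hvU
  obtain ⟨R, h1, h2, h3, h4, h5⟩ := comp_link (G := G) (l := l) x u (hU hu) v hv
  -- walk along `R`
  have key : ∀ (R : List V) (u : V), u ∈ U → R.IsChain G.Adj → (∀ v ∈ R, v ∈ comp G l x) →
      R.head? = some u → ∀ v ∈ R, v ∈ U := by
    intro R
    induction R with
    | nil => intro u _ _ _ _ v hv; simp at hv
    | cons a R ih =>
      intro u hu hch hR hhead v hv
      simp only [List.head?_cons, Option.some.injEq] at hhead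
      subst hhead
      rcases List.mem_cons.1 hv with rfl | hv
      · exact hu
      cases R with
      | nil => simp at hv
      | cons b R =>
        rw [List.isChain_cons_cons] at hch
        exact ih b (hcl a hu b (hR b (by simp)) hch.1) hch.2
          (fun v hv => hR v (List.mem_cons_of_mem _ hv)) rfl v hv
  refine hvU (key R u hu h1 h3 h4 v ?_)
  exact List.mem_of_getLast? h5

theorem pos_of (h : Longest G l) (x : V) : 0 < l.length := by
  have := h.2.2 [x] (by simp) (by simp)
  rw [List.length_singleton] at this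
  omega

theorem theSys (h : Longest G l) (x : V) :
    Sys G l.length (fun i => l.getD i x) (comp G l x) :=
  sys h (pos_of h x) comp_not (comp_link x) (comp_conn x) x

/-- the closed neighbourhood -/
def NC (G : SimpleGraph V) (C : Set V) : Set V := {v | v ∈ C ∨ ∃ c ∈ C, G.Adj c v}

/-- the number of vertices of the closed neighbourhood -/
noncomputable def nc [Fintype V] (G : SimpleGraph V) (C : Set V) : ℕ :=
  (univ.filter fun v => v ∈ NC G C).card

theorem idx {l : List V} {v : V} (x : V) (h : v ∈ l) : ∃ k < l.length, l.getD k x = v := by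
  obtain ⟨k, hk, rfl⟩ := List.getElem_of_mem h
  exact ⟨k, hk, List.getD_eq_getElem _ _ hk⟩

theorem getD_mem {l : List V} (x : V) {k : ℕ} (hk : k < l.length) : l.getD k x ∈ l := by
  rw [List.getD_eq_getElem _ _ hk]
  exact List.getElem_mem hk

/-- the attachments of a component -/
theorem att {l : List V} {x0 v : V} (hv : v ∉ comp G l x0) {c : V} (hc : c ∈ comp G l x0)
    (h : G.Adj c v) : ∃ j ∈ Sys.I G l.length (fun i => l.getD i x0) (comp G l x0),
      l.getD j x0 = v := by
  have hvl : v ∈ l := by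
    by_contra hcon
    exact hv (comp_closed hc h hcon)
  obtain ⟨k, hk, rfl⟩ := idx x0 hvl
  exact ⟨k, Sys.mem_I.2 ⟨hk, c, hc, h⟩, rfl⟩

theorem notNC {l : List V} {x0 : V} {k : ℕ} (hk : k < l.length)
    (hI : k ∉ Sys.I G l.length (fun i => l.getD i x0) (comp G l x0)) :
    l.getD k x0 ∉ NC G (comp G l x0) := by
  rintro (h | ⟨c, hc, h⟩)
  · exact comp_not _ h (getD_mem x0 hk)
  · exact hI (Sys.mem_I.2 ⟨hk, c, hc, h⟩)

end Pool.Agent.H123.LP
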