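import Pool.Agent.H123.LP.Phi

/-!
# Parts of the graph without the closed neighbourhood of a component
-/

set_option autoImplicit false

namespace Pool.Agent.H123.LP

open Finset Classical

variable {V : Type*} {G : SimpleGraph V}

/-- `y` can be reached from `x` inside `O` -/
def Rch (G : SimpleGraph V) (O : Set V) : V → V → Prop :=
  Relation.ReflTransGen fun x y => x ∈ O ∧ y ∈ O ∧ G.Adj x y

/-- the union of the components of `O` in which `a` has a neighbour -/
def Tch (G : SimpleGraph V) (O : Set V) (a : V) : Set V :=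
  {w | ∃ u ∈ O, G.Adj a u ∧ Rch G O u w}

variable {O : Set V}

theorem Rch.symm {x y : V} (h : Rch G O x y) : Rch G O y x := by
  induction h with
  | refl => exact Relation.ReflTransGen.refl
  | tail _ h ih => exact Relation.ReflTransGen.head ⟨h.2.1, h.1, h.2.2.symm⟩ ih

theorem Rch.mem {x y : V} (h : Rch G O x y) (hx : x ∈ O) : y ∈ O := by
  induction h with
  | refl => exact hx
  | tail _ h _ => exact h.2.1

theorem Tch_sub {a w : V} (h : w ∈ Tch G O a) : w ∈ O := by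
  obtain ⟨u, hu, -, h⟩ := h
  exact h.mem hu

theorem Tch_adj {a u : V} (hu : u ∈ O) (h : G.Adj a u) : u ∈ Tch G O a :=
  ⟨u, hu, h, Relation.ReflTransGen.refl⟩

theorem Tch_rch {a w x : V} (h : w ∈ Tch G O a) (hx : Rch G O w x) : x ∈ Tch G O a := by
  obtain ⟨u, hu, h1, h2⟩ := h
  exact ⟨u, hu, h1, h2.trans hx⟩

theorem Rch.single {w x : V} (hw : w ∈ O) (hx : x ∈ O) (hwx : G.Adj w x) : Rch G O w x :=
  Relation.ReflTransGen.single ⟨hw, hx, hwx⟩

theorem Tch_step {a w x : V} (h : w ∈ Tch G O a) (hx : x ∈ O) (hwx : G.Adj w x) :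
    x ∈ Tch G O a :=
  Tch_rch h (Rch.single (Tch_sub h) hx hwx)

/-- a vertex with a neighbour and a non-neighbour in a connected set is complete to the
components of the rest which it touches -/
theorem full (h5 : NoP5 G) {C : Set V} (hO : ∀ o ∈ O, ∀ c ∈ C, ¬ G.Adj c o) {a c0 c1 : V}
    (hc0 : c0 ∈ C) (hc1 : c1 ∈ C) (h01 : G.Adj c0 c1) (ha1 : G.Adj a c1) (ha0 : ¬ G.Adj a c0) :
    ∀ w ∈ Tch G O a, G.Adj a w := by
  rintro w ⟨u, hu, hau, h⟩
  induction h with
  | refl => exact hau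
  | @tail x y _ h ih =>
    by_contra hay
    exact h5 c0 c1 a x y h01 ha1.symm ih h.2.2 (fun h => ha0 h.symm) (hO x h.1 c0 hc0)
      (hO y h.2.1 c0 hc0) (hO x h.1 c1 hc1) (hO y h.2.1 c1 hc1) hay

variable {L : ℕ} {p : ℕ → V} {C : Set V}

/-- an edge between the neighbours and the non-neighbours -/
theorem mixedEdge (S : Sys G L p C) {a c c' : V} (hc : c ∈ C) (hc' : c' ∈ C) (h : G.Adj a c)
    (h' : ¬ G.Adj a c') : ∃ c0 ∈ C, ∃ c1 ∈ C, G.Adj c0 c1 ∧ G.Adj a c1 ∧ ¬ G.Adj a c0 := by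
  by_contra hcon
  push Not at hcon
  have h1 : {v | v ∈ C ∧ G.Adj a v} = C := by
    refine S.conn _ (fun v hv => hv.1) ⟨c, hc, h⟩ ?_
    rintro u ⟨hu, hau⟩ v hv huv
    exact ⟨hv, hcon v hv u hu huv.symm hau⟩
  have h2 : c' ∈ {v | v ∈ C ∧ G.Adj a v} := by
    rw [h1]
    exact hc'
  exact h' h2.2

/-- a common neighbour in the connected set -/
theorem comm (S : Sys G L p C) (h5 : NoP5 G) {a s y : V} (ha : ∃ c ∈ C, G.Adj a c)
    (hs : ∃ c ∈ C, G.Adj c s) (hya : G.Adj y a) (hyC : ∀ c ∈ C, ¬ G.Adj y c) (hys : ¬ G.Adj y s)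
    (has : ¬ G.Adj a s) : ∃ c ∈ C, G.Adj a c ∧ G.Adj c s := by
  obtain ⟨cj, hcj, hcjs⟩ := hs
  rcases S.near h5 hya hyC ha cj hcj with h | ⟨u, hu, hau, huc⟩
  · exact ⟨cj, hcj, h, hcjs⟩
  · by_cases hus : G.Adj u s
    · exact ⟨u, hu, hau, hus⟩
    by_cases hacj : G.Adj a cj
    · exact ⟨cj, hcj, hacj, hcjs⟩
    exact (h5 y a u cj s hya hau huc hcjs (hyC u hu) (hyC cj hcj) hys hacj has hus).elim

/-- the touched parts of two nonadjacent attachments are nested -/
theorem nested (S : Sys G L p C) (h5 : NoP5 G) (hO : ∀ o ∈ O, ∀ c ∈ C, ¬ G.Adj c o) {a s : V}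
    (ha : ∃ c ∈ C, G.Adj c a) (hs : ∃ c ∈ C, G.Adj c s) (has : ¬ G.Adj a s) :
    Tch G O a ⊆ Tch G O s ∨ Tch G O s ⊆ Tch G O a := by
  by_contra hcon
  rw [not_or, Set.not_subset, Set.not_subset] at hcon
  obtain ⟨⟨y, ⟨u, hu, hau, huy⟩, hys⟩, ⟨x, ⟨v, hv, hsv, hvx⟩, hxa⟩⟩ := hcon
  have h1 : u ∉ Tch G O s := fun h => hys (Tch_rch h huy)
  have h2 : v ∉ Tch G O a := fun h => hxa (Tch_rch h hvx)
  have hus : ¬ G.Adj u s := fun h => h1 (Tch_adj hu h.symm)
  have hva : ¬ G.Adj a v := fun h => h2 (Tch_adj hv h)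
  have huv : ¬ G.Adj u v := fun h => h2 (Tch_step (Tch_adj hu hau) hv h)
  have hac : ∃ c ∈ C, G.Adj a c := by
    obtain ⟨c, hc, h⟩ := ha
    exact ⟨c, hc, h.symm⟩
  obtain ⟨c, hc, hac, hcs⟩ := comm S h5 hac hs hau.symm (fun c hc h => hO u hu c hc h.symm) hus has
  exact h5 u a c s v hau.symm hac hcs hsv (fun h => hO u hu c hc h.symm) hus huv has hva
    (hO v hv c hc)

/-- counting neighbours on a path -/
theorem count2 (hinj : ∀ i < L, ∀ j < L, p i = p j → i = j) (X : Finset ℕ) (Y : Finset V)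
    (hX : X.Nonempty) (h : ∀ i ∈ X, 1 ≤ i ∧ i + 1 < L ∧ p (i - 1) ∈ Y ∧ p (i + 1) ∈ Y) :
    X.card + 1 ≤ Y.card := by
  set m := X.min' hX with hm
  have hmX : m ∈ X := min'_mem _ hX
  obtain ⟨hm1, hmL, hmY, -⟩ := h m hmX
  have h1 : Set.InjOn (fun i => p (i + 1)) (X : Set ℕ) := by
    intro i hi j hj hij
    have := hinj (i + 1) (h i hi).2.1 (j + 1) (h j hj).2.1 hij
    omega
  have h2 : p (m - 1) ∉ X.image fun i => p (i + 1) := by
    intro h3
    obtain ⟨i, hi, h4⟩ := mem_image.1 h3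
    have h5 := hinj (i + 1) (h i hi).2.1 (m - 1) (by omega) h4
    have h6 : m ≤ i := min'_le _ _ hi
    omega
  rw [← card_image_of_injOn h1, ← card_insert_of_notMem h2]
  refine card_le_card ?_
  intro v hv
  rcases mem_insert.1 hv with rfl | hv
  · exact hmY
  · obtain ⟨i, hi, rfl⟩ := mem_image.1 hv
    exact (h i hi).2.2.2

/-- along a chain -/
theorem chain_fwd {U : V → Prop} : ∀ (R : List V), R.IsChain G.Adj →
    (∀ u ∈ R.head?, U u) → (∀ u ∈ R, ∀ v ∈ R, G.Adj u v → U u → U v) → ∀ v ∈ R, U v := by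
  intro R
  induction R with
  | nil => intro _ _ _ v hv; simp at hv
  | cons a R ih =>
    intro hch hhead hstep v hv
    have ha : U a := hhead a (by simp)
    rcases List.mem_cons.1 hv with rfl | hv
    · exact ha
    cases R with
    | nil => simp at hv
    | cons b R =>
      rw [List.isChain_cons_cons] at hch
      refine ih hch.2 ?_ (fun u hu v hv => hstep u (List.mem_cons_of_mem _ hu) v
        (List.mem_cons_of_mem _ hv)) v hv
      intro u hu
      simp only [List.head?_cons, Option.mem_def, Option.some.injEq] at hu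
      subst hu
      exact hstep a (by simp) b (by simp) hch.1 ha

end Pool.Agent.H123.LP
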