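import Pool.Agent.H123.LP.CaseA

/-!
# A vertex common to all longest paths
-/

set_option autoImplicit false

namespace Pool.Agent.H123.LP

open Finset Classical

variable {V : Type*} {G : SimpleGraph V}

/-- a longest path in a set -/
theorem longestIn [Fintype V] (O : Set V) : ∃ D : List V, D.IsChain G.Adj ∧ D.Nodup ∧
    (∀ v ∈ D, v ∈ O) ∧ ∀ D' : List V, D'.IsChain G.Adj → D'.Nodup → (∀ v ∈ D', v ∈ O) →
      D'.length ≤ D.length := by
  obtain ⟨D, hD1, hD2, hD3, hD4⟩ := Nat.findGreatest_spec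
    (P := fun n => ∃ D : List V, D.IsChain G.Adj ∧ D.Nodup ∧ (∀ v ∈ D, v ∈ O) ∧ D.length = n)
    (n := Fintype.card V) (Nat.zero_le _) ⟨[], by simp, by simp, by simp, rfl⟩
  refine ⟨D, hD1, hD2, hD3, fun D' h1 h2 h3 => ?_⟩
  rw [hD4]
  exact Nat.le_findGreatest (P := fun n => ∃ D : List V, D.IsChain G.Adj ∧ D.Nodup ∧
    (∀ v ∈ D, v ∈ O) ∧ D.length = n) h2.length_le_card ⟨D', h1, h2, h3, rfl⟩

/-- every part is touched by an attachment -/
theorem touched (hG : G.Connected) {l : List V} {x0 : V} (hx0 : x0 ∉ l) {e : V}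
    (he : e ∈ Out G (comp G l x0)) :
    ∃ j ∈ Sys.I G l.length (fun i => l.getD i x0) (comp G l x0),
      e ∈ Tch G (Out G (comp G l x0)) (l.getD j x0) := by
  obtain ⟨w⟩ := hG.preconnected e x0
  obtain ⟨d, -, hd1, hd2⟩ := w.exists_boundary_dart {v | Rch G (Out G (comp G l x0)) e v}
    Relation.ReflTransGen.refl (fun h => out_notC (Rch.mem h he) (self_comp hx0))
  have hd1O : d.fst ∈ Out G (comp G l x0) := Rch.mem hd1 he
  have hd3 : d.snd ∉ Out G (comp G l x0) := fun h =>
    hd2 (Relation.ReflTransGen.trans hd1 (Rch.single hd1O h d.adj))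
  have hd4 : d.snd ∉ comp G l x0 := fun h => out_not _ hd1O _ h d.adj.symm
  have hd5 : ∃ c ∈ comp G l x0, G.Adj c d.snd := by
    by_contra hcon
    refine hd3 ?_
    rintro (h | h)
    · exact hd4 h
    · exact hcon h
  obtain ⟨c, hc, hcd⟩ := hd5
  obtain ⟨j, hj, hjd⟩ := att hd4 hc hcd
  refine ⟨j, hj, ?_⟩
  rw [hjd]
  exact ⟨d.fst, hd1O, d.adj.symm, Rch.symm hd1⟩

/-- **A vertex common to all longest paths.** -/
theorem common [Fintype V] (hG : G.Connected) (h5 : NoP5 G) :
    ∃ a, ∀ P : List V, Longest G P → a ∈ P := by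
  by_cases hall : ∃ (Q : List V) (x0 : V), Longest G Q ∧ x0 ∉ Q
  swap
  · obtain ⟨a⟩ := hG.nonempty
    refine ⟨a, fun P hP => ?_⟩
    by_contra haP
    exact hall ⟨P, a, hP, haP⟩
  obtain ⟨Q', x0', hQ', hx0'⟩ := hall
  obtain ⟨Q, x0, hQ, hx0, hn⟩ := Nat.findGreatest_spec
    (P := fun n => ∃ (Q : List V) (x0 : V), Longest G Q ∧ x0 ∉ Q ∧ nc G (comp G Q x0) = n)
    (n := Fintype.card V) (card_le_univ _ : nc G (comp G Q' x0') ≤ Fintype.card V)
    ⟨Q', x0', hQ', hx0', rfl⟩
  have hmaxC : ∀ (P : List V) (y : V), Longest G P → y ∉ P →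
      nc G (comp G P y) ≤ nc G (comp G Q x0) := by
    intro P y hP hy
    rw [hn]
    exact Nat.le_findGreatest (P := fun n => ∃ (Q : List V) (x0 : V), Longest G Q ∧ x0 ∉ Q ∧
      nc G (comp G Q x0) = n) (card_le_univ _) ⟨P, y, hP, hy, rfl⟩
  clear hn
  have SQ := theSys hQ x0 (G := G)
  have hpos := pos_of hQ x0
  set C := comp G Q x0 with hC
  set O := Out G C with hO
  set J := Sys.I G Q.length (fun i => Q.getD i x0) C with hJ
  -- the longest path in the rest
  obtain ⟨D, hD1, hD2, hD3, hDmax⟩ := longestIn (G := G) O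
  have h0O : Q.getD 0 x0 ∈ O := by
    refine notNC hpos ?_
    intro h
    have := SQ.pos h
    omega
  have hDne : D ≠ [] := by
    rintro rfl
    have := hDmax [Q.getD 0 x0] (by simp) (by simp) (by simpa using h0O)
    simp at this
  obtain ⟨e, D', hDe⟩ := List.exists_cons_of_ne_nil hDne
  have heO : e ∈ O := hD3 e (by rw [hDe]; simp)
  have hDall : ∀ a, e ∈ Tch G O a → ∀ v ∈ D, v ∈ Tch G O a := by
    intro a hea
    refine chain_fwd (U := fun v => v ∈ Tch G O a) _ hD1 ?_ ?_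
    · intro u hu
      rw [hDe] at hu
      simp only [List.head?_cons, Option.mem_def, Option.some.injEq] at hu
      exact hu ▸ hea
    · intro u hu v hv huv h
      exact Tch_step h (hD3 v hv) huv
  -- the choice of the attachment
  set wt : ℕ → ℕ := fun j => (univ.filter fun v => v ∈ Tch G O (Q.getD j x0)).card with hwt
  set F := J.filter fun j => e ∈ Tch G O (Q.getD j x0) with hF
  have hFne : F.Nonempty := by
    obtain ⟨j, hj, hej⟩ := touched hG hx0 heO
    exact ⟨j, by rw [hF, mem_filter]; exact ⟨hj, hej⟩⟩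
  obtain ⟨i1, hi1, hi1max⟩ := exists_max_image F wt hFne
  set F2 := F.filter fun j => wt j = wt i1 with hF2
  have hF2ne : F2.Nonempty := ⟨i1, by rw [hF2, mem_filter]; exact ⟨hi1, rfl⟩⟩
  obtain ⟨i, hi, himax⟩ := exists_max_image F2
    (fun j => (Sys.tau G Q.length (fun i => Q.getD i x0) C (Q.getD j x0)).card) hF2ne
  rw [hF2, mem_filter] at hi
  obtain ⟨hiF, hiw⟩ := hi
  have hiF' := hiF
  rw [hF, mem_filter] at hiF'
  obtain ⟨hiJ, hei⟩ := hiF'
  obtain ⟨hiL, cI, hcI, hcIi⟩ := Sys.mem_I.1 hiJ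
  set a := Q.getD i x0 with ha
  have haC : a ∉ C := fun h => comp_not _ h (getD_mem x0 hiL)
  -- a larger touched part is equal
  have heq : ∀ j ∈ J, Tch G O a ⊆ Tch G O (Q.getD j x0) →
      Tch G O (Q.getD j x0) ⊆ Tch G O a ∧
      (Sys.tau G Q.length (fun i => Q.getD i x0) C (Q.getD j x0)).card ≤
        (Sys.tau G Q.length (fun i => Q.getD i x0) C a).card := by
    intro j hj hsub
    have hjF : j ∈ F := by
      rw [hF, mem_filter]
      exact ⟨hj, hsub hei⟩
    have h1 := hi1max j hjF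
    have hle : wt i ≤ wt j := by
      refine card_le_card ?_
      intro v hv
      rw [mem_filter] at hv ⊢
      exact ⟨hv.1, hsub hv.2⟩
    have hwj : wt j = wt i := by omega
    constructor
    · have h2 : (univ.filter fun v => v ∈ Tch G O a) =
          (univ.filter fun v => v ∈ Tch G O (Q.getD j x0)) := by
        refine eq_of_subset_of_card_le ?_ (le_of_eq hwj)
        intro v hv
        rw [mem_filter] at hv ⊢
        exact ⟨hv.1, hsub hv.2⟩
      intro v hv
      have h3 : v ∈ (univ.filter fun v => v ∈ Tch G O (Q.getD j x0)) := by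
        rw [mem_filter]
        exact ⟨mem_univ _, hv⟩
      rw [← h2, mem_filter] at h3
      exact h3.2
    · refine himax j ?_
      rw [hF2, mem_filter]
      exact ⟨hjF, by omega⟩
  have hT : ∀ s, s ∉ C → (∃ c ∈ C, G.Adj c s) → ¬ G.Adj a s → Tch G O s ⊆ Tch G O a := by
    rintro s hsC ⟨c, hc, hcs⟩ has
    obtain ⟨j, hj, hjs⟩ := att hsC hc hcs
    rcases nested SQ h5 (out_not (G := G) (C := C)) ⟨cI, hcI, hcIi⟩ ⟨c, hc, hcs⟩ has with h | h
    · subst hjs
      exact (heq j hj h).1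
    · exact h
  refine ⟨a, fun P hP => ?_⟩
  by_contra haP
  have hcomp := caseB h5 hQ hP hD1 hD2 hDne hDmax haC ⟨cI, hcI, hcIi⟩ (hDall a hei) hT haP
  have hnum : J.card + 1 ≤ Sys.num G Q.length (fun i => Q.getD i x0) (Q.getD i x0) := by
    refine SQ.main_of hiJ ?_
    intro j hj hnon
    have e1 := SQ.pos hj
    have e2 := SQ.succ_lt hj
    have e3 : G.Adj (Q.getD j x0) (Q.getD (j - 1) x0) := by
      have := SQ.adj (j - 1) (by omega)
      rw [show j - 1 + 1 = j by omega] at this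
      exact this.symm
    exact ⟨claimA SQ h5 out_not (fun k hk hkI => notNC hk hkI) hcomp hj (fun h => (heq j hj h).2)
        e2 (SQ.succ_not hj) (SQ.adj j e2) (SQ.ind_succ hj) hnon,
      claimA SQ h5 out_not (fun k hk hkI => notNC hk hkI) hcomp hj (fun h => (heq j hj h).2)
        (by omega) (SQ.pred_not hj) e3 (SQ.ind_pred hj) hnon⟩
  have h1 := caseA hQ hiJ hcomp hnum haP
  exact absurd (lt_of_lt_of_le h1 (hmaxC P a hP haP)) (lt_irrefl _)

end Pool.Agent.H123.LP
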