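import Pool.Agent.H123.LP.Fin

/-!
# Paths in a component which start at an attachment
-/

set_option autoImplicit false

namespace Pool.Agent.H123.LP

open Finset Classical

variable {V : Type*} {G : SimpleGraph V}

theorem firstSat {R : List V} (pr : V → Prop) (h : ∃ v ∈ R, pr v) :
    ∃ R1 w R2, R = R1 ++ w :: R2 ∧ pr w ∧ ∀ v ∈ R1, ¬ pr v := by
  induction R with
  | nil => simp at h
  | cons a R ih =>
    by_cases ha : pr a
    · exact ⟨[], a, R, rfl, ha, by simp⟩
    · obtain ⟨v, hv, hpv⟩ := h
      rcases List.mem_cons.1 hv with rfl | hv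
      · exact absurd hpv ha
      · obtain ⟨R1, w, R2, h1, h2, h3⟩ := ih ⟨v, hv, hpv⟩
        refine ⟨a :: R1, w, R2, by rw [h1]; rfl, h2, ?_⟩
        intro v hv
        rcases List.mem_cons.1 hv with rfl | hv
        · exact ha
        · exact h3 v hv

/-- from each vertex attached to `C` starts a path in `C` with at least `n` vertices -/
def phi (G : SimpleGraph V) (C : Set V) (n : ℕ) : Prop :=
  ∀ σ ∉ C, ∀ c ∈ C, G.Adj c σ → ∃ R : List V, R.IsChain G.Adj ∧ R.Nodup ∧ (∀ v ∈ R, v ∈ C) ∧
    n ≤ R.length ∧ ∃ c' ∈ R.head?, G.Adj c' σ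

theorem phi_len {Q : List V} (hQ : Longest G Q) {x0 : V} {j n : ℕ}
    (hj : j ∈ Sys.I G Q.length (fun i => Q.getD i x0) (comp G Q x0))
    (h : phi G (comp G Q x0) n) : n ≤ j := by
  obtain ⟨hjL, c, hc, hcj⟩ := Sys.mem_I.1 hj
  rw [List.getD_eq_getElem _ _ hjL] at hcj
  obtain ⟨R, r1, r2, r3, r4, c', r5, r6⟩ := h Q[j] (fun h => comp_not _ h (List.getElem_mem hjL)) c
    hc hcj
  have hsp : Q.take j ++ Q.drop j = Q := List.take_append_drop j Q
  have hch := hQ.1
  rw [← hsp, List.isChain_append] at hch
  have h1 := hQ.2.2 (R.reverse ++ Q.drop j) (by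
    rw [List.isChain_append]
    refine ⟨?_, hch.2.1, ?_⟩
    · rw [List.isChain_reverse]
      exact r1.imp fun _ _ h => h.symm
    · intro x hx y hy
      rw [List.getLast?_reverse] at hx
      rw [List.head?_eq_getElem?, List.getElem?_drop, Nat.add_zero,
        List.getElem?_eq_getElem hjL] at hy
      rw [Option.mem_def] at hx r5
      rw [r5] at hx
      simp only [Option.mem_def, Option.some.injEq] at hx hy
      subst hx
      subst hy
      exact r6) (by
    rw [List.nodup_append]
    refine ⟨List.nodup_reverse.2 r2, hQ.2.1.sublist (List.drop_sublist j Q), ?_⟩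
    rintro x hx y hy rfl
    exact comp_not _ (r3 x (List.mem_reverse.1 hx)) (List.mem_of_mem_drop hy))
  rw [List.length_append, List.length_reverse, List.length_drop] at h1
  omega

theorem phi_fin {C : Set V} (hL : Link G C) {a : V} (ha : a ∈ C) {D : List V}
    (h1 : D.IsChain G.Adj) (h2 : D.Nodup) (h3 : ∀ v ∈ D, v ∈ C) (h4 : ∀ v ∈ D, G.Adj a v) :
    phi G C (D.length + 1) := by
  intro σ hσ c hc hcσ
  have haD : a ∉ D := fun h => G.loopless.irrefl a (h4 a h)
  obtain ⟨R, r1, r2, r3, r4, r5⟩ := hL c hc a ha
  obtain ⟨R1, w, R2, e1, e2, e3⟩ := firstSat (R := R) (fun v => v = a ∨ v ∈ D)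
    ⟨a, List.mem_of_getLast? r5, Or.inl rfl⟩
  subst e1
  rw [List.isChain_append] at r1
  obtain ⟨r1a, -, r1c⟩ := r1
  rw [List.nodup_append] at r2
  have hlast : ∀ x ∈ R1.getLast?, G.Adj x w := fun x hx => r1c x hx w (by simp)
  have hnd : (R1 ++ a :: D).Nodup := by
    rw [List.nodup_append]
    refine ⟨r2.1, List.nodup_cons.2 ⟨haD, h2⟩, ?_⟩
    rintro x hx y hy rfl
    rcases List.mem_cons.1 hy with h | h
    · exact e3 x hx (Or.inl h)
    · exact e3 x hx (Or.inr h)
  have hin : ∀ v ∈ R1 ++ a :: D, v ∈ C := by
    intro v hv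
    rcases List.mem_append.1 hv with hv | hv
    · exact r3 v (List.mem_append_left _ hv)
    · rcases List.mem_cons.1 hv with rfl | hv
      · exact ha
      · exact h3 v hv
  by_cases hwa : w = a
  · subst hwa
    refine ⟨R1 ++ w :: D, ?_, hnd, hin, by simp only [List.length_append, List.length_cons]; omega,
      c, ?_, hcσ⟩
    · rw [List.isChain_append, List.isChain_cons]
      refine ⟨r1a, ⟨fun y hy => h4 y (List.mem_of_mem_head? hy), h1⟩, ?_⟩
      intro x hx y hy
      simp only [List.head?_cons, Option.mem_def, Option.some.injEq] at hy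
      subst hy
      exact hlast x hx
    · cases R1 with
      | nil => simpa using r4
      | cons x R1 => simpa using r4
  · have hwD : w ∈ D := e2.resolve_left hwa
    obtain ⟨T1, T2, hT⟩ := List.append_of_mem hwD
    have hp : (R1 ++ ((T1 ++ [w]).reverse ++ a :: T2)).Perm (R1 ++ a :: D) := by
      rw [List.perm_iff_count]
      intro v
      rw [hT]
      simp only [List.count_append, List.count_reverse, List.count_cons, List.count_nil]
      omega
    have hT' : D = (T1 ++ [w]) ++ T2 := by rw [hT]; simp
    have h1' := h1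
    rw [hT', List.isChain_append] at h1'
    refine ⟨R1 ++ ((T1 ++ [w]).reverse ++ a :: T2), ?_, hp.nodup_iff.2 hnd,
      fun v hv => hin v (hp.mem_iff.1 hv), ?_, c, ?_, hcσ⟩
    · rw [List.isChain_append, List.isChain_append, List.isChain_cons]
      refine ⟨r1a, ⟨?_, ⟨?_, h1'.2.1⟩, ?_⟩, ?_⟩
      · rw [List.isChain_reverse]
        exact h1'.1.imp fun _ _ h => h.symm
      · intro y hy
        refine h4 y ?_
        rw [hT']
        exact List.mem_append_right _ (List.mem_of_mem_head? hy)
      · intro x hx y hy
        rw [List.getLast?_reverse] at hx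
        simp only [List.head?_cons, Option.mem_def, Option.some.injEq] at hy
        subst hy
        refine (h4 x ?_).symm
        rw [hT']
        exact List.mem_append_left _ (List.mem_of_mem_head? hx)
      · intro x hx y hy
        simp only [List.reverse_append, List.reverse_cons, List.reverse_nil, List.nil_append,
          List.cons_append, List.head?_cons, Option.mem_def, Option.some.injEq] at hy
        subst hy
        exact hlast x hx
    · rw [hp.length_eq, List.length_append, List.length_cons]
      omega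
    · cases R1 with
      | nil => simpa using r4
      | cons x R1 => simpa using r4

end Pool.Agent.H123.LP
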